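import Pool.Agent.R950.SDFinal

/-!
# MP_941405_ag: modules whose tensor product with their canonical dual is the canonical module

Over the Artinian local ring `R = k[x,y]/(x,y)² ⊗_k k[u,v]/(u,v)²` (`k` the field with two elements)
the module `M = E ⊗_k k[u,v]/(u,v)²`, where `E` is the canonical module of `k[x,y]/(x,y)²`, satisfies
`M ⊗_R Hom_R(M, ω) ≅ ω`, but it is isomorphic neither to `R` nor to the canonical module `ω` of `R`.
-/

open TensorProduct

namespace Pool.Agent.Results.MP_941405_ag.NotRNorOmega

open Pool.Agent.R950.SD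

/-- The statement for every Cohen–Macaulay local ring `R` with canonical module `ω` and every finitely
generated `R`-module `M`, if `M ⊗ Hom(M, ω) ≅ ω` then `M ≅ R` or `M ≅ ω` is false. -/
theorem result :
    ¬ ∀ (R : Type) [CommRing R] [IsLocalRing R] [IsNoetherianRing R], IsCM R →
      ∀ (ω : Type) [AddCommGroup ω] [Module R ω], IsCanonical R ω →
      ∀ (M : Type) [AddCommGroup M] [Module R M] [Module.Finite R M],
        Nonempty ((M ⊗[R] (M →ₗ[R] ω)) ≃ₗ[R] ω) →
          Nonempty (M ≃ₗ[R] R) ∨ Nonempty (M ≃ₗ[R] ω) := by
  intro h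
  have : Module.Finite R M := Module.Finite.of_finite
  rcases h R cm_R Om canonical_Om M counterexample.1 with h1 | h1
  · exact counterexample.2.1 h1
  · exact counterexample.2.2 h1

end Pool.Agent.Results.MP_941405_ag.NotRNorOmega
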